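import Pool.Agent.Helper59.SL.GoalsC

/-!
# Packet SLG TRT: `S_TRANS` for one tensor
-/

namespace Pool.Agent.Helper38.SLG.TRT

open Pool.Agent.Helper51.SigLeo Pool.Agent.Helper51.SixExp Pool.Agent.Helper17.SL
  Pool.Agent.Helper59.SL NumberField Module TensorProduct

universe u v w x

/-- Every tensor is a finite sum of pure tensors, indexed by `Fin N`. -/
theorem exists_sum {A : Type*} [Field A] {M : Type*} [AddCommGroup M] (z : A ⊗[ℤ] M) :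
    ∃ (N : ℕ) (b : Fin N → A) (y : Fin N → M), z = ∑ r, b r ⊗ₜ[ℤ] y r := by
  induction z using TensorProduct.induction_on with
  | zero => exact ⟨0, Fin.elim0, Fin.elim0, by simp⟩
  | tmul a m => exact ⟨1, fun _ ↦ a, fun _ ↦ m, by simp⟩
  | add x y hx hy =>
    obtain ⟨N, b, u, rfl⟩ := hx
    obtain ⟨N', b', u', rfl⟩ := hy
    refine ⟨N + N', Fin.append b b', Fin.append u u', ?_⟩
    rw [Fin.sum_univ_add]
    simp

/-- The image of a unit of the integers of `Ω` in `Ωˣ`. -/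
noncomputable def im {Ω : Type*} [Field Ω] (y : Additive (𝓞 Ω)ˣ) : Ωˣ :=
  Units.map (algebraMap (𝓞 Ω) Ω : 𝓞 Ω →* Ω) y.toMul

theorem im_isUnitAlg {Ω : Type*} [Field Ω] [CharZero Ω] (y : Additive (𝓞 Ω)ˣ) :
    IsUnitAlg (im y) := by
  have key : ∀ v : (𝓞 Ω)ˣ,
      IsIntegral ℤ (Units.map (algebraMap (𝓞 Ω) Ω : 𝓞 Ω →* Ω) v : Ω) := fun v ↦
    RingOfIntegers.isIntegral_coe (v : 𝓞 Ω)
  refine ⟨key y.toMul, ?_⟩
  have : (im y)⁻¹ = Units.map (algebraMap (𝓞 Ω) Ω : 𝓞 Ω →* Ω) (y.toMul)⁻¹ := by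
    unfold im; rw [map_inv]
  rw [this]
  exact key _

theorem thm (h : S_TRANS.{u, v, w, 0}) : S_TRT.{u, v, w} := by
  intro p _ k _ _ _ _ _ Ω _ _ _ ι Λ E _ _ lam z hz ε ι'
  obtain ⟨N, b, y, rfl⟩ := exists_sum z
  have h1 : ∑ r, ι (lam (b r)) * Λ.toFun (Units.map (ι : Ω →* k) (im (y r))) = 0 := by
    rw [map_sum, map_sum] at hz
    rw [← hz]
    refine Finset.sum_congr rfl fun r _ ↦ ?_
    rw [cc_tmul, extHom_tmul]
    rfl
  have h2 := h p k Ω ι Λ E lam (Fin N) b (fun r ↦ im (y r)) (fun r ↦ im_isUnitAlg (y r)) h1 ε ι'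
  rw [map_sum, map_sum, ← h2]
  refine Finset.sum_congr rfl fun r _ ↦ ?_
  rw [cc_tmul, extHom_tmul]
  rfl

end Pool.Agent.Helper38.SLG.TRT
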